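import Pool.Agent.Helper69.QG.St1

/-! # Project QD, part C, geometric half: module CLS -/

open Complex Set Metric
open scoped ComplexConjugate

namespace Pool.Agent.Helper32.QG

open Pool.Agent.Helper69.QG

/-- the reflection as a linear map -/
private noncomputable def rfL (s : Fin 4) : V3 →ₗ[ℝ] V3 where
  toFun := rf s
  map_add' x y := by
    have e : rf s (x + y) = (x + y) - (2 * lf (x + y) (ev s)) • ev s := rfl
    have e1 : rf s x = x - (2 * lf x (ev s)) • ev s := rfl
    have e2 : rf s y = y - (2 * lf y (ev s)) • ev s := rfl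
    rw [e, e1, e2, lf_add_left]
    module
  map_smul' c x := by
    have e : rf s (c • x) = (c • x) - (2 * lf (c • x) (ev s)) • ev s := rfl
    have e1 : rf s x = x - (2 * lf x (ev s)) • ev s := rfl
    rw [e, e1, lf_smul_left, RingHom.id_apply]
    module

private theorem exists_lin (w : W) : ∃ L : V3 →ₗ[ℝ] V3, ∀ z : DD, Xm (act w z : DD) = L (Xm z) := by
  refine cs.simple_induction (p := fun w => ∃ L : V3 →ₗ[ℝ] V3, ∀ z : DD,
    Xm (act w z : DD) = L (Xm z)) w ?_ ?_ ?_
  · intro i
    refine ⟨rfL i, fun z => ?_⟩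
    have h : act (cs.simple i) = Rp i := act_gen i
    rw [h, Xm_Rp]
    rfl
  · refine ⟨LinearMap.id, fun z => ?_⟩
    rw [map_one]
    rfl
  · rintro w w' ⟨L, hL⟩ ⟨L', hL'⟩
    refine ⟨L.comp L', fun z => ?_⟩
    rw [map_mul, Equiv.Perm.mul_apply, hL, hL', LinearMap.comp_apply]

/-- two points of the hyperboloid -/
private theorem lf_neg' {x y : V3} (hx : lf x x = -1) (hx0 : 0 < x 0) (hy : lf y y = -1)
    (hy0 : 0 < y 0) : lf x y < 0 := by
  unfold lf at hx hy ⊢
  have h1 : (x 1 * y 1 + x 2 * y 2) ^ 2 < (x 0 * y 0) ^ 2 := by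
    have a1 : x 0 ^ 2 = 1 + (x 1 ^ 2 + x 2 ^ 2) := by nlinarith
    have a2 : y 0 ^ 2 = 1 + (y 1 ^ 2 + y 2 ^ 2) := by nlinarith
    rw [mul_pow, a1, a2]
    nlinarith [sq_nonneg (x 1 * y 2 - x 2 * y 1), sq_nonneg (x 1), sq_nonneg (x 2),
      sq_nonneg (y 1), sq_nonneg (y 2)]
  have h2 : |x 1 * y 1 + x 2 * y 2| < x 0 * y 0 := abs_lt_of_sq_lt_sq h1 (by positivity)
  have h3 := (abs_lt.mp h2).2
  linarith

private theorem cls_open (tit : St_TIT) (dih : St_DIH) (w : W) (s : Fin 4)
    (hl : cs.length w < cs.length (gen s * w)) (z : DD) (hz : z ∈ Po) :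
    0 < lf (Xm (act w z : DD)) (ev s) := by
  refine tit (Fin 4) W DD cm cs act (fun s => {z : DD | 0 < lf (Xm z) (ev s)}) ?_ w s hl z ?_
  · intro s t hst m hm x hx1 hx2
    exact dih s t hst m hm x hx1 hx2
  · intro t
    exact hz t

private theorem cls_closed (tit : St_TIT) (dih : St_DIH) (pbd : St_PBD) (w : W) (s : Fin 4)
    (hl : cs.length w < cs.length (gen s * w)) (z : DD) (hz : z ∈ Pc) :
    0 ≤ lf (Xm (act w z : DD)) (ev s) := by
  obtain ⟨L, hL⟩ := exists_lin w
  obtain ⟨y, hy⟩ := pbd.2.2.1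
  have key : ∀ ε : ℝ, 0 < ε →
      0 < lf (Xm (act w z : DD)) (ev s) + ε * lf (Xm (act w y : DD)) (ev s) := by
    intro ε hε
    obtain ⟨hz1, hz0⟩ := Xm_hyp z.2
    obtain ⟨hy1, hy0⟩ := Xm_hyp y.2
    have hzy := lf_neg' hz1 hz0 hy1 hy0
    set x : V3 := Xm z + ε • Xm y with hx
    have hxx : lf x x < 0 := by
      have e : lf x x = lf (Xm z) (Xm z) + 2 * ε * lf (Xm z) (Xm y)
          + ε ^ 2 * lf (Xm y) (Xm y) := by
        rw [hx]
        simp only [lf, Pi.add_apply, Pi.smul_apply, smul_eq_mul]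
        ring
      rw [e, hz1, hy1]
      nlinarith [mul_pos hε (neg_pos.mpr hzy), mul_pos hε hε]
    have hx0 : 0 < x 0 := by
      have e : x 0 = Xm z 0 + ε * Xm y 0 := by
        rw [hx]
        simp only [Pi.add_apply, Pi.smul_apply, smul_eq_mul]
      rw [e]
      positivity
    set c : ℝ := (Real.sqrt (-lf x x))⁻¹ with hc
    have hs0 : 0 < Real.sqrt (-lf x x) := Real.sqrt_pos.mpr (by linarith)
    have hc0 : 0 < c := inv_pos.mpr hs0
    have hc2 : c ^ 2 * lf x x = -1 := by
      rw [hc, inv_pow, Real.sq_sqrt (by linarith)]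
      have : lf x x ≠ 0 := hxx.ne
      field_simp
    have h1 : lf (c • x) (c • x) = -1 := by
      rw [lf_smul_left, lf_comm, lf_smul_left, ← mul_assoc, ← pow_two]
      exact hc2
    have h2 : 0 < (c • x) 0 := by
      simp only [Pi.smul_apply, smul_eq_mul]
      positivity
    obtain ⟨hm, hX⟩ := Xm_Zm h1 h2
    let z' : DD := ⟨Zm (c • x), hm⟩
    have hX' : Xm (z' : ℂ) = c • x := hX
    have hlin : ∀ v : V3, lf (c • x) v = c * (lf (Xm z) v + ε * lf (Xm y) v) := by
      intro v
      rw [lf_smul_left, hx, lf_add_left, lf_smul_left]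
    have hz' : z' ∈ Po := by
      intro t
      rw [hX', hlin]
      have a1 := hz t
      have a2 := hy t
      have : 0 < lf (Xm z) (ev t) + ε * lf (Xm y) (ev t) := by
        have := mul_pos hε a2
        linarith
      positivity
    have h3 := cls_open tit dih w s hl z' hz'
    rw [hL, hX', map_smul, hx, map_add, map_smul, lf_smul_left, lf_add_left, lf_smul_left,
      ← hL, ← hL] at h3
    exact (mul_pos_iff_of_pos_left hc0).mp h3
  by_contra hneg
  push Not at hneg
  set A := lf (Xm (act w z : DD)) (ev s) with hA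
  set B := lf (Xm (act w y : DD)) (ev s) with hB
  have hBpos : 0 < B := by
    have := key 1 one_pos
    linarith
  have h4 := key (-A / (2 * B)) (by
    apply div_pos
    · linarith
    · positivity)
  have h5 : -A / (2 * B) * B = -A / 2 := by
    field_simp
  rw [h5] at h4
  linarith

/-- **CLS** -/
theorem cCLS (tit : St_TIT) (dih : St_DIH) (pbd : St_PBD) : St_CLS := by
  intro w s
  refine ⟨fun hl z hz => cls_closed tit dih pbd w s hl z hz,
    fun hl z hz => cls_open tit dih w s hl z hz, ?_⟩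
  intro hl z hz
  have hgg : gen s * (gen s * w) = w := by
    rw [← mul_assoc]
    have : gen s * gen s = 1 := cs.simple_mul_simple_self s
    rw [this, one_mul]
  have h1 := cls_closed tit dih pbd (gen s * w) s (by rw [hgg]; exact hl) z hz
  rw [map_mul, Equiv.Perm.mul_apply, act_gen, Xm_Rp, lf_rf, lf_ev_self] at h1
  linarith

end Pool.Agent.Helper32.QG
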