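import Pool.Agent.Helper69.QG.St4
import Pool.Agent.Helper68.QC.Cal

/-! # Project QD, part C, geometric half: module DTL (derivative of the folding map) -/

open Complex Set Metric MeasureTheory Filter Topology
open scoped ComplexConjugate

namespace Pool.Agent.Helper32.QG

open Pool.Agent.Helper69.QG
open Pool.Agent.Helper68.QC (dz dzb dz_comp dzb_comp dz_mul dzb_mul dz_id dzb_id dz_conj dzb_conj
  dz_holo dzb_holo dz_sub dzb_sub dz_const dzb_const dz_const_mul dzb_const_mul dz_add dzb_add)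

private theorem dz_congr {f g : ℂ → ℂ} {z : ℂ} (h : f =ᶠ[𝓝 z] g) : dz f z = dz g z := by
  unfold dz
  rw [h.fderiv_eq]

private theorem dzb_congr {f g : ℂ → ℂ} {z : ℂ} (h : f =ᶠ[𝓝 z] g) : dzb f z = dzb g z := by
  unfold dzb
  rw [h.fderiv_eq]

private theorem diff_cj (z : ℂ) : DifferentiableAt ℝ (fun x : ℂ => conj x) z :=
  Complex.conjCLE.differentiableAt

private theorem d_cj (z : ℂ) : dz (fun x : ℂ => conj x) z = 0 ∧
    dzb (fun x : ℂ => conj x) z = 1 := by
  constructor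
  · rw [dz_conj differentiableAt_fun_id, dzb_id, map_zero]
  · rw [dzb_conj differentiableAt_fun_id, dz_id, map_one]

/-- antiholomorphic maps -/
private theorem anti {G : ℂ → ℂ} {z d : ℂ} (h : HasDerivAt G d (conj z)) (hd : d ≠ 0) :
    DifferentiableAt ℝ (fun x => G (conj x)) z ∧ dz (fun x => G (conj x)) z = 0 ∧
      dzb (fun x => G (conj x)) z ≠ 0 := by
  have hG : DifferentiableAt ℂ G (conj z) := h.differentiableAt
  have hG' : DifferentiableAt ℝ G (conj z) := hG.restrictScalars ℝ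
  have e := d_cj z
  refine ⟨DifferentiableAt.comp z hG' (diff_cj z), ?_, ?_⟩
  · rw [dz_comp hG' (diff_cj z), e.1, e.2, dzb_holo hG]
    simp
  · rw [dzb_comp hG' (diff_cj z), e.1, e.2, dzb_holo hG, dz_holo hG, h.deriv]
    simpa using hd

open Classical in
/-- the action extended to the plane -/
private noncomputable def AE (w : W) (z : ℂ) : ℂ :=
  if h : z ∈ ball (0 : ℂ) 1 then ((act w ⟨z, h⟩ : DD) : ℂ) else 0

private theorem AE_mem (w : W) {z : ℂ} (h : z ∈ ball (0 : ℂ) 1) :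
    AE w z = ((act w ⟨z, h⟩ : DD) : ℂ) := dif_pos h

private theorem AE_ball (w : W) {z : ℂ} (h : z ∈ ball (0 : ℂ) 1) : AE w z ∈ ball (0 : ℂ) 1 := by
  rw [AE_mem w h]
  exact (act w ⟨z, h⟩).2

private theorem ball_nhds {z : ℂ} (h : z ∈ ball (0 : ℂ) 1) : ball (0 : ℂ) 1 ∈ 𝓝 z :=
  isOpen_ball.mem_nhds h

/-- even type -/
private def PE (w : W) : Prop :=
  (∀ z ∈ ball (0 : ℂ) 1, DifferentiableAt ℝ (AE w) z ∧ dz (AE w) z ≠ 0 ∧ dzb (AE w) z = 0) ∧
    ∃ e t : ℂ, e ≠ 0 ∧ ∀ u, flat w u = e * u + t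

/-- odd type -/
private def PO (w : W) : Prop :=
  (∀ z ∈ ball (0 : ℂ) 1, DifferentiableAt ℝ (AE w) z ∧ dz (AE w) z = 0 ∧ dzb (AE w) z ≠ 0) ∧
    ∃ e t : ℂ, e ≠ 0 ∧ ∀ u, flat w u = e * conj u + t

private theorem C0_sq : (1 : ℂ) - (C0 : ℂ) ^ 2 ≠ 0 := by
  have h : (1 : ℝ) - C0 ^ 2 ≠ 0 := by
    have := C0_gt
    nlinarith
  have h2 : ((1 - C0 ^ 2 : ℝ) : ℂ) ≠ 0 := by exact_mod_cast h
  push_cast at h2
  exact h2

private theorem R_anti (s : Fin 4) {z : ℂ} (hz : z ∈ ball (0 : ℂ) 1) :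
    DifferentiableAt ℝ (R s) z ∧ dz (R s) z = 0 ∧ dzb (R s) z ≠ 0 := by
  have hC := C0_gt
  have hzn : ‖z‖ < 1 := by simpa using hz
  have hcn : ‖conj z‖ < 1 := by simpa using hzn
  fin_cases s
  · refine anti (G := fun x => -x) (d := -1) ?_ (by norm_num)
    exact (hasDerivAt_id _).neg
  · have hne : conj z - (C0 : ℂ) ≠ 0 := by
      intro h
      have h1 : conj z = (C0 : ℂ) := sub_eq_zero.mp h
      rw [h1, Complex.norm_real, Real.norm_of_nonneg (by linarith)] at hcn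
      linarith
    refine anti (G := fun x => (C0 * x - 1) / (x - C0))
      (d := (C0 * (conj z - C0) - (C0 * conj z - 1) * 1) / (conj z - C0) ^ 2) ?_ ?_
    · have h1 : HasDerivAt (fun x : ℂ => (C0 : ℂ) * x - 1) (C0 : ℂ) (conj z) := by
        simpa using ((hasDerivAt_id (conj z)).const_mul (C0 : ℂ)).sub_const 1
      have h2 : HasDerivAt (fun x : ℂ => x - (C0 : ℂ)) 1 (conj z) :=
        (hasDerivAt_id (conj z)).sub_const _
      exact h1.div h2 hne
    · have e1 : (C0 : ℂ) * (conj z - C0) - (C0 * conj z - 1) * 1 = 1 - (C0 : ℂ) ^ 2 := by ring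
      rw [e1]
      exact div_ne_zero C0_sq (pow_ne_zero _ hne)
  · refine anti (G := fun x => x) (d := 1) ?_ (by norm_num)
    exact hasDerivAt_id _
  · have hne : conj z + I * (C0 : ℂ) ≠ 0 := by
      intro h
      have h1 : conj z = -(I * (C0 : ℂ)) := eq_neg_of_add_eq_zero_left h
      rw [h1, norm_neg, norm_mul, Complex.norm_I, Complex.norm_real,
        Real.norm_of_nonneg (by linarith)] at hcn
      linarith
    refine anti (G := fun x => (I * C0 * x - 1) / (x + I * C0))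
      (d := (I * C0 * (conj z + I * C0) - (I * C0 * conj z - 1) * 1) / (conj z + I * C0) ^ 2) ?_ ?_
    · have h1 : HasDerivAt (fun x : ℂ => I * (C0 : ℂ) * x - 1) (I * (C0 : ℂ)) (conj z) := by
        simpa using ((hasDerivAt_id (conj z)).const_mul (I * (C0 : ℂ))).sub_const 1
      have h2 : HasDerivAt (fun x : ℂ => x + I * (C0 : ℂ)) 1 (conj z) :=
        (hasDerivAt_id (conj z)).add_const _
      exact h1.div h2 hne
    · have e1 : I * (C0 : ℂ) * (conj z + I * C0) - (I * C0 * conj z - 1) * 1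
          = 1 - (C0 : ℂ) ^ 2 := by
        linear_combination (C0 : ℂ) ^ 2 * Complex.I_sq
      rw [e1]
      exact div_ne_zero C0_sq (pow_ne_zero _ hne)

private theorem PO_simple (s : Fin 4) : PO (cs.simple s) := by
  constructor
  · intro z hz
    have hev : AE (cs.simple s) =ᶠ[𝓝 z] R s := by
      filter_upwards [ball_nhds hz] with x hx
      rw [AE_mem _ hx]
      have h : act (cs.simple s) = Rp s := act_gen s
      rw [h]
      rfl
    obtain ⟨h1, h2, h3⟩ := R_anti s hz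
    refine ⟨h1.congr_of_eventuallyEq hev, ?_, ?_⟩
    · rw [dz_congr hev, h2]
    · rw [dzb_congr hev]
      exact h3
  · have hf : ∀ u, flat (cs.simple s) u = fr s u := fun u => flat_gen s u
    simp_rw [hf]
    fin_cases s
    · exact ⟨-1, 0, by norm_num, fun u => by simp [fr]⟩
    · exact ⟨-1, 2, by norm_num, fun u => by simp [fr]; ring⟩
    · exact ⟨1, 0, by norm_num, fun u => by simp [fr]⟩
    · exact ⟨1, 2 * I, by norm_num, fun u => by simp [fr]⟩

private theorem PE_one : PE 1 := by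
  constructor
  · intro z hz
    have hev : AE 1 =ᶠ[𝓝 z] fun x => x := by
      filter_upwards [ball_nhds hz] with x hx
      rw [AE_mem _ hx, map_one]
      rfl
    refine ⟨differentiableAt_fun_id.congr_of_eventuallyEq hev, ?_, ?_⟩
    · rw [dz_congr hev, dz_id]
      exact one_ne_zero
    · rw [dzb_congr hev, dzb_id]
  · refine ⟨1, 0, one_ne_zero, fun u => ?_⟩
    rw [map_one, Equiv.Perm.one_apply]
    ring

private theorem AE_mul (w w' : W) {z : ℂ} (hz : z ∈ ball (0 : ℂ) 1) :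
    AE (w * w') =ᶠ[𝓝 z] fun x => AE w (AE w' x) := by
  filter_upwards [ball_nhds hz] with x hx
  rw [AE_mem _ hx, AE_mem w' hx, AE_mem w (act w' ⟨x, hx⟩).2, map_mul, Equiv.Perm.mul_apply]

private theorem P_mul (w w' : W) (h : PE w ∨ PO w) (h' : PE w' ∨ PO w') :
    PE (w * w') ∨ PO (w * w') := by
  have hdiff : ∀ z ∈ ball (0 : ℂ) 1, DifferentiableAt ℝ (AE w) (AE w' z) →
      DifferentiableAt ℝ (AE w') z → DifferentiableAt ℝ (AE (w * w')) z ∧
        dz (AE (w * w')) z = dz (AE w) (AE w' z) * dz (AE w') z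
          + dzb (AE w) (AE w' z) * conj (dzb (AE w') z) ∧
        dzb (AE (w * w')) z = dz (AE w) (AE w' z) * dzb (AE w') z
          + dzb (AE w) (AE w' z) * conj (dz (AE w') z) := by
    intro z hz d1 d2
    have hev := AE_mul w w' hz
    refine ⟨(DifferentiableAt.comp z d1 d2).congr_of_eventuallyEq hev, ?_, ?_⟩
    · rw [dz_congr hev, dz_comp d1 d2]
    · rw [dzb_congr hev, dzb_comp d1 d2]
  have hflat : ∀ u, flat (w * w') u = flat w (flat w' u) := by
    intro u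
    rw [map_mul, Equiv.Perm.mul_apply]
  rcases h with ⟨h1, e, t, he, hf⟩ | ⟨h1, e, t, he, hf⟩ <;>
    rcases h' with ⟨h1', e', t', he', hf'⟩ | ⟨h1', e', t', he', hf'⟩
  · left
    refine ⟨fun z hz => ?_, e * e', e * t' + t, mul_ne_zero he he', fun u => ?_⟩
    · obtain ⟨a1, a2, a3⟩ := h1 _ (AE_ball w' hz)
      obtain ⟨b1, b2, b3⟩ := h1' z hz
      obtain ⟨c1, c2, c3⟩ := hdiff z hz a1 b1
      refine ⟨c1, ?_, ?_⟩
      · rw [c2, b3, a3]
        simpa using ⟨a2, b2⟩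
      · rw [c3, b3, a3]
        simp
    · rw [hflat, hf', hf]
      ring
  · right
    refine ⟨fun z hz => ?_, e * e', e * t' + t, mul_ne_zero he he', fun u => ?_⟩
    · obtain ⟨a1, a2, a3⟩ := h1 _ (AE_ball w' hz)
      obtain ⟨b1, b2, b3⟩ := h1' z hz
      obtain ⟨c1, c2, c3⟩ := hdiff z hz a1 b1
      refine ⟨c1, ?_, ?_⟩
      · rw [c2, b2, a3]
        simp
      · rw [c3, b2, a3]
        simpa using ⟨a2, b3⟩
    · rw [hflat, hf', hf]
      ring
  · right
    refine ⟨fun z hz => ?_, e * conj e', e * conj t' + t, mul_ne_zero he (by simpa using he'),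
      fun u => ?_⟩
    · obtain ⟨a1, a2, a3⟩ := h1 _ (AE_ball w' hz)
      obtain ⟨b1, b2, b3⟩ := h1' z hz
      obtain ⟨c1, c2, c3⟩ := hdiff z hz a1 b1
      refine ⟨c1, ?_, ?_⟩
      · rw [c2, b3, a2]
        simp
      · rw [c3, b3, a2]
        simpa using ⟨a3, b2⟩
    · rw [hflat, hf', hf, map_add, map_mul]
      ring
  · left
    refine ⟨fun z hz => ?_, e * conj e', e * conj t' + t, mul_ne_zero he (by simpa using he'),
      fun u => ?_⟩
    · obtain ⟨a1, a2, a3⟩ := h1 _ (AE_ball w' hz)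
      obtain ⟨b1, b2, b3⟩ := h1' z hz
      obtain ⟨c1, c2, c3⟩ := hdiff z hz a1 b1
      refine ⟨c1, ?_, ?_⟩
      · rw [c2, b2, a2]
        simpa using ⟨a3, b3⟩
      · rw [c3, b2, a2]
        simp
    · rw [hflat, hf', hf, map_add, map_mul, Complex.conj_conj]
      ring

private theorem P_all (w : W) : PE w ∨ PO w :=
  cs.simple_induction (p := fun w => PE w ∨ PO w) w (fun s => Or.inr (PO_simple s))
    (Or.inl PE_one) (fun w w' h h' => P_mul w w' h h')

/-! ### the flat coordinate -/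

private theorem psi_deriv (p : ℂ) : DifferentiableAt ℝ psi p ∧ dz psi p ≠ 0 ∧
    ‖dzb psi p‖ = ‖p‖ ^ 2 * ‖dz psi p‖ := by
  have htau := tau_pos
  set c : ℂ := ((2 / tau : ℝ) : ℂ) with hc
  have hc0 : c ≠ 0 := by
    rw [hc]
    exact_mod_cast (by positivity : (2 / tau : ℝ) ≠ 0)
  set q : ℂ → ℂ := fun z => 1 + z * conj z with hq
  have hqr : ∀ z, q z = ((1 + ‖z‖ ^ 2 : ℝ) : ℂ) := by
    intro z
    rw [hq]
    simp only
    rw [Complex.mul_conj, Complex.normSq_eq_norm_sq]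
    push_cast
    ring
  have hq0 : ∀ z, q z ≠ 0 := by
    intro z
    rw [hqr]
    exact_mod_cast (by positivity : (1 + ‖z‖ ^ 2 : ℝ) ≠ 0)
  have hpsi : psi = fun z => c * (z * (q z)⁻¹) := by
    funext z
    rw [psi, hqr, hc]
    have h1 : (1 + ‖z‖ ^ 2 : ℝ) ≠ 0 := by positivity
    push_cast
    field_simp
  have dx : DifferentiableAt ℝ (fun z : ℂ => z) p := differentiableAt_fun_id
  have dcx : DifferentiableAt ℝ (fun z : ℂ => z * conj z) p := dx.mul (diff_cj p)
  have dq : DifferentiableAt ℝ q p := (differentiableAt_const _).add dcx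
  have dinv : DifferentiableAt ℂ (fun x : ℂ => x⁻¹) (q p) := differentiableAt_inv (hq0 p)
  have dinv' : DifferentiableAt ℝ (fun x : ℂ => x⁻¹) (q p) := dinv.restrictScalars ℝ
  have dqi : DifferentiableAt ℝ (fun z => (q z)⁻¹) p := DifferentiableAt.comp p dinv' dq
  have dxq : DifferentiableAt ℝ (fun z => z * (q z)⁻¹) p := dx.mul dqi
  have e := d_cj p
  have q1 : dz q p = conj p := by
    rw [hq, dz_add (differentiableAt_const _) dcx, dz_const, dz_mul dx (diff_cj p), dz_id, e.1]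
    ring
  have q2 : dzb q p = p := by
    rw [hq, dzb_add (differentiableAt_const _) dcx, dzb_const, dzb_mul dx (diff_cj p), dzb_id, e.2]
    ring
  have hder : deriv (fun x : ℂ => x⁻¹) (q p) = -((q p) ^ 2)⁻¹ := deriv_inv
  have i1 : dz (fun z => (q z)⁻¹) p = -((q p) ^ 2)⁻¹ * conj p := by
    rw [dz_comp dinv' dq, dz_holo dinv, dzb_holo dinv, hder, q1]
    ring
  have i2 : dzb (fun z => (q z)⁻¹) p = -((q p) ^ 2)⁻¹ * p := by
    rw [dzb_comp dinv' dq, dz_holo dinv, dzb_holo dinv, hder, q2]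
    ring
  have hqp := hq0 p
  have f1 : dz psi p = c * ((q p) ^ 2)⁻¹ := by
    rw [hpsi, dz_const_mul c dxq, dz_mul dx dqi, dz_id, i1]
    have : q p = 1 + p * conj p := rfl
    field_simp
    rw [this]
    ring
  have f2 : dzb psi p = -(p ^ 2 * (c * ((q p) ^ 2)⁻¹)) := by
    rw [hpsi, dzb_const_mul c dxq, dzb_mul dx dqi, dzb_id, i2]
    ring
  refine ⟨?_, ?_, ?_⟩
  · rw [hpsi]
    exact (differentiableAt_const _).mul dxq
  · rw [f1]
    exact mul_ne_zero hc0 (inv_ne_zero (pow_ne_zero _ hqp))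
  · rw [f2, f1, norm_neg, norm_mul, norm_pow]

private theorem lf_cont (s : Fin 4) {p : ℂ} (hp : p ∈ ball (0 : ℂ) 1) :
    ContinuousAt (fun x : ℂ => lf (Xm x) (ev s)) p := by
  have hpn : ‖p‖ < 1 := by simpa using hp
  have h1 : (1 : ℝ) - ‖p‖ ^ 2 ≠ 0 := by nlinarith [norm_nonneg p]
  have hd : ContinuousAt (fun x : ℂ => (1 : ℝ) - ‖x‖ ^ 2) p := by fun_prop
  have c0 : ContinuousAt (fun x : ℂ => (1 + ‖x‖ ^ 2) / (1 - ‖x‖ ^ 2)) p :=
    ContinuousAt.div (by fun_prop) hd h1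
  have c1 : ContinuousAt (fun x : ℂ => 2 * x.re / (1 - ‖x‖ ^ 2)) p :=
    ContinuousAt.div (by fun_prop) hd h1
  have c2 : ContinuousAt (fun x : ℂ => 2 * x.im / (1 - ‖x‖ ^ 2)) p :=
    ContinuousAt.div (by fun_prop) hd h1
  have e : (fun x : ℂ => lf (Xm x) (ev s)) = fun x : ℂ =>
      -((1 + ‖x‖ ^ 2) / (1 - ‖x‖ ^ 2) * ev s 0) + 2 * x.re / (1 - ‖x‖ ^ 2) * ev s 1
        + 2 * x.im / (1 - ‖x‖ ^ 2) * ev s 2 := by
    funext x
    rfl
  rw [e]
  exact (((c0.mul continuousAt_const).neg).add (c1.mul continuousAt_const)).add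
    (c2.mul continuousAt_const)

/-- **DTL** -/
theorem cDTL (pbd : St_PBD) (_cta : St_CTA) (_evl : St_EVL) : St_DTL := by
  intro Psi hPsi w z hzw
  have hz : (z : ℂ) ∈ ball (0 : ℂ) 1 := z.2
  set m : ℂ → ℂ := AE w with hm
  have hmz : m z = ((act w z : DD) : ℂ) := AE_mem w hz
  set p : ℂ := m z with hp
  have hpb : p ∈ ball (0 : ℂ) 1 := AE_ball w hz
  have hPc : ∀ x : DD, x ∈ Po → x ∈ Pc := fun x hx s => (hx s).le
  have hpn : ‖p‖ ^ 2 ≤ Real.sqrt 2 - 1 := by
    rw [hmz]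
    exact pbd.2.1 _ (hPc _ hzw)
  obtain ⟨s1, s2, s3⟩ := psi_deriv p
  have hP := P_all w
  have hdm : DifferentiableAt ℝ m z := by
    rcases hP with h | h
    · exact (h.1 z hz).1
    · exact (h.1 z hz).1
  -- near `z` the image is in the open tile
  have hnear : ∀ᶠ x in 𝓝 (z : ℂ), x ∈ ball (0 : ℂ) 1 ∧ ∀ s, 0 < lf (Xm (m x)) (ev s) := by
    refine Filter.Eventually.and (ball_nhds hz) ?_
    rw [eventually_all]
    intro s
    have h1 : ContinuousAt (fun x : ℂ => lf (Xm (m x)) (ev s)) z :=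
      ContinuousAt.comp (f := m) (g := fun x : ℂ => lf (Xm x) (ev s)) (lf_cont s hpb)
        hdm.continuousAt
    have h2 : 0 < lf (Xm (m z)) (ev s) := by
      rw [← hp, hmz]
      exact hzw s
    exact h1.eventually (lt_mem_nhds h2)
  have hrel : ∀ᶠ x in 𝓝 (z : ℂ), psi (m x) = flat w (PsE Psi x) := by
    filter_upwards [hnear] with x hx
    obtain ⟨hxb, hxs⟩ := hx
    have h1 : m x = ((act w ⟨x, hxb⟩ : DD) : ℂ) := AE_mem w hxb
    have h2 : act w ⟨x, hxb⟩ ∈ Pc := by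
      apply hPc
      intro s
      rw [← h1]
      exact hxs s
    have h3 := hPsi.eqv w ⟨x, hxb⟩
    rw [hPsi.tile _ h2] at h3
    have h4 : PsE Psi x = Psi ⟨x, hxb⟩ := dif_pos hxb
    rw [h4, h1, h3]
  have dpm : DifferentiableAt ℝ (fun x => psi (m x)) z :=
    DifferentiableAt.comp (g := psi) (f := m) (z : ℂ) s1 hdm
  rcases hP with ⟨h1, e, t, he, hf⟩ | ⟨h1, e, t, he, hf⟩
  · obtain ⟨-, a2, a3⟩ := h1 z hz
    have hev : PsE Psi =ᶠ[𝓝 (z : ℂ)] fun x => e⁻¹ * (psi (m x) - t) := by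
      filter_upwards [hrel] with x hx
      rw [hx, hf]
      field_simp
      ring
    have dG : DifferentiableAt ℝ (fun x => psi (m x) - t) z :=
      dpm.sub (differentiableAt_const _)
    have g1 : dz (PsE Psi) z = e⁻¹ * (dz psi p * dz m z) := by
      rw [dz_congr hev, dz_const_mul _ dG, dz_sub dpm (differentiableAt_const _), dz_const,
        dz_comp s1 hdm, a3, map_zero]
      ring
    have g2 : dzb (PsE Psi) z = e⁻¹ * (dzb psi p * conj (dz m z)) := by
      rw [dzb_congr hev, dzb_const_mul _ dG, dzb_sub dpm (differentiableAt_const _), dzb_const,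
        dzb_comp s1 hdm, a3]
      ring
    refine ⟨?_, ?_, ?_⟩
    · exact ((differentiableAt_const _).mul dG).congr_of_eventuallyEq hev
    · rw [g1]
      exact mul_ne_zero (inv_ne_zero he) (mul_ne_zero s2 a2)
    · rw [g1, g2, norm_mul, norm_mul, norm_mul, norm_mul, RCLike.norm_conj, s3]
      have hA : 0 ≤ ‖e⁻¹‖ * (‖dz psi p‖ * ‖dz m z‖) := by positivity
      calc ‖e⁻¹‖ * (‖p‖ ^ 2 * ‖dz psi p‖ * ‖dz m z‖)
          = ‖p‖ ^ 2 * (‖e⁻¹‖ * (‖dz psi p‖ * ‖dz m z‖)) := by ring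
        _ ≤ (Real.sqrt 2 - 1) * (‖e⁻¹‖ * (‖dz psi p‖ * ‖dz m z‖)) :=
            mul_le_mul_of_nonneg_right hpn hA
  · obtain ⟨-, a2, a3⟩ := h1 z hz
    have hev : PsE Psi =ᶠ[𝓝 (z : ℂ)] fun x => conj (e⁻¹ * (psi (m x) - t)) := by
      filter_upwards [hrel] with x hx
      rw [hx, hf]
      have h5 : e⁻¹ * (e * conj (PsE Psi x) + t - t) = conj (PsE Psi x) := by
        field_simp
        ring
      rw [h5, Complex.conj_conj]
    have dG : DifferentiableAt ℝ (fun x => psi (m x) - t) z :=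
      dpm.sub (differentiableAt_const _)
    have dH : DifferentiableAt ℝ (fun x => e⁻¹ * (psi (m x) - t)) z :=
      (differentiableAt_const _).mul dG
    have g1 : dz (PsE Psi) z = conj (e⁻¹ * (dz psi p * dzb m z)) := by
      rw [dz_congr hev, dz_conj dH, dzb_const_mul _ dG, dzb_sub dpm (differentiableAt_const _),
        dzb_const, dzb_comp s1 hdm, a2, map_zero]
      congr 1
      ring
    have g2 : dzb (PsE Psi) z = conj (e⁻¹ * (dzb psi p * conj (dzb m z))) := by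
      rw [dzb_congr hev, dzb_conj dH, dz_const_mul _ dG, dz_sub dpm (differentiableAt_const _),
        dz_const, dz_comp s1 hdm, a2]
      congr 1
      ring
    refine ⟨?_, ?_, ?_⟩
    · have : DifferentiableAt ℝ (fun x => conj (e⁻¹ * (psi (m x) - t))) z :=
        DifferentiableAt.comp (z : ℂ) (diff_cj _) dH
      exact this.congr_of_eventuallyEq hev
    · rw [g1, Ne, map_eq_zero]
      exact mul_ne_zero (inv_ne_zero he) (mul_ne_zero s2 a3)
    · rw [g1, g2, RCLike.norm_conj, RCLike.norm_conj, norm_mul, norm_mul, norm_mul, norm_mul,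
        RCLike.norm_conj, s3]
      have hA : 0 ≤ ‖e⁻¹‖ * (‖dz psi p‖ * ‖dzb m z‖) := by positivity
      calc ‖e⁻¹‖ * (‖p‖ ^ 2 * ‖dz psi p‖ * ‖dzb m z‖)
          = ‖p‖ ^ 2 * (‖e⁻¹‖ * (‖dz psi p‖ * ‖dzb m z‖)) := by ring
        _ ≤ (Real.sqrt 2 - 1) * (‖e⁻¹‖ * (‖dz psi p‖ * ‖dzb m z‖)) :=
            mul_le_mul_of_nonneg_right hpn hA

end Pool.Agent.Helper32.QG
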